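import Pool.Agent.Lib.MP_df5726_co.Rigid

/-!
# A polyomino tiling of the plane, no bounded part of which can be used to tile a torus

The cell `[a, a + 1] × [b, b + 1]` of the grid is given by `(a, b) : ℤ × ℤ`.

Idea of the proof. The `37` cells with `proj = 0` form a polyomino `D` whose translates by the
lattice `(6 + i) ℤ[i]` tile the plane. The polyomino `P` is the union of three such translates,
an L-tromino on the macro-grid `(6 + i) ℤ[i]`. The macro-grid is divided into macro-cells of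
`37` squares each, which form a lattice parallel to the axes of the original grid. There are two
kinds `α`, `β` of macro-cells; the macro-cell `(i, j)` is of kind `β` iff for some `l ≥ 0` both
`i` and `j` are `≡ 3 ^ l mod 3 ^ (l + 1)`. Both kinds have `9` tilings by L-trominoes, which
transport states `t, u ∈ ℤ/3` horizontally and vertically, and carry weights in `ℤ/3` such
that suitable row weights and column weights sum up to `0` on every tile. The total weights of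
the two kinds are different. A fundamental domain of a lattice `nℤ × mℤ` which is a union of
tiles must be compatible with the lattice `(6 + i) ℤ[i]` (rigidity of `D`), and then a suitable
row or column weight has nonzero sum over the fundamental domain, a contradiction.
-/

namespace Pool.Agent.Results.MP_df5726_co.NoTorusPatch

open Pool.Agent.Lib.MP_df5726_co

/-- A cell `[a, a + 1] × [b, b + 1]` of the unit square grid, given by `(a, b)`. -/
abbrev Cell : Type := ℤ × ℤ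

/-- Two cells share an edge. -/
def Adj (z w : Cell) : Prop := |z.1 - w.1| + |z.2 - w.2| = 1

/-- A polyomino: a nonempty finite set of cells which is edge-connected, that is, any two of its
cells are connected by a path of cells of the set in which consecutive cells share an edge. -/
def IsPolyomino (P : Set Cell) : Prop :=
  P.Nonempty ∧ P.Finite ∧
    ∀ z ∈ P, ∀ w ∈ P, Relation.ReflTransGen (fun a b => a ∈ P ∧ b ∈ P ∧ Adj a b) z w

/-- The action on the cells of the isometries of the plane which map the grid onto itself: a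
signed permutation matrix followed by an integer translation. -/
def IsGridIsometry (g : Cell → Cell) : Prop :=
  ∃ a b c d s t : ℤ,
    ((|a| = 1 ∧ b = 0 ∧ c = 0 ∧ |d| = 1) ∨ (a = 0 ∧ |b| = 1 ∧ |c| = 1 ∧ d = 0)) ∧
      ∀ z : Cell, g z = (a * z.1 + b * z.2 + s, c * z.1 + d * z.2 + t)

/-- `Q` is a copy of `P`. -/
def IsCopy (P Q : Set Cell) : Prop := ∃ g : Cell → Cell, IsGridIsometry g ∧ Q = g '' P

/-- `T` is a tiling of the plane by copies of `P`: every cell lies in exactly one member. -/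
def IsTiling (P : Set Cell) (T : Set (Set Cell)) : Prop :=
  (∀ Q ∈ T, IsCopy P Q) ∧ ∀ z : Cell, ∃! Q, Q ∈ T ∧ z ∈ Q

/-- `F` is a fundamental domain of `nℤ × mℤ`: every cell `z` lies in `F + l` for exactly one
`l ∈ nℤ × mℤ`. -/
def IsFundamentalDomain (m n : ℕ) (F : Set Cell) : Prop :=
  ∀ z : Cell, ∃! l : ℤ × ℤ, (n : ℤ) ∣ l.1 ∧ (m : ℤ) ∣ l.2 ∧ z - l ∈ F

/-- The polyomino with `111` cells. -/
def thePoly : Set Cell := {z | proj z = (0, 0) ∨ proj z = (1, 0) ∨ proj z = (0, 1)}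

/-- The tiling. -/
def theTiling : Set (Set Cell) := (fun τ : Finset (ℤ × ℤ) => {z | proj z ∈ τ}) '' TQ

theorem thePoly_range {z : Cell} (hz : z ∈ thePoly) :
    z.1 ∈ Finset.Icc (-9 : ℤ) 12 ∧ z.2 ∈ Finset.Icc (-9 : ℤ) 12 := by
  obtain ⟨x, y⟩ := z
  simp only [thePoly, proj, Set.mem_ofPred_eq, Prod.mk.injEq] at hz
  simp only [Finset.mem_Icc]
  omega

instance (z w : Cell) : Decidable (Adj z w) := by unfold Adj; infer_instance

instance (z : Cell) : Decidable (z ∈ thePoly) :=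
  inferInstanceAs (Decidable (proj z = (0, 0) ∨ proj z = (1, 0) ∨ proj z = (0, 1)))

theorem descend : ∀ x ∈ Finset.Icc (-9 : ℤ) 12, ∀ y ∈ Finset.Icc (-9 : ℤ) 12,
    ((x, y) : Cell) ∈ thePoly → (x, y) = ((0, 0) : Cell) ∨
      ∃ v ∈ ([(1, 0), (0, 1), (-1, 0), (0, -1)] : List (ℤ × ℤ)),
        ((x, y) + v : Cell) ∈ thePoly ∧
          ((x, y) + v : Cell).1.natAbs + ((x, y) + v : Cell).2.natAbs < x.natAbs + y.natAbs := by
  decide +kernel

theorem conn_origin : ∀ N : ℕ, ∀ z ∈ thePoly, z.1.natAbs + z.2.natAbs ≤ N →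
    Relation.ReflTransGen (fun a b => a ∈ thePoly ∧ b ∈ thePoly ∧ Adj a b) z (0, 0) ∧
      Relation.ReflTransGen (fun a b => a ∈ thePoly ∧ b ∈ thePoly ∧ Adj a b) (0, 0) z := by
  intro N
  induction N with
  | zero =>
    intro z _ h
    have : z = (0, 0) := by ext <;> simp only <;> omega
    subst this
    exact ⟨.refl, .refl⟩
  | succ N ih =>
    intro z hz h
    obtain ⟨h1, h2⟩ := thePoly_range hz
    rcases descend z.1 h1 z.2 h2 hz with h0 | ⟨v, hv, h3, h4⟩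
    · have : z = (0, 0) := h0
      subst this
      exact ⟨.refl, .refl⟩
    · obtain ⟨i1, i2⟩ := ih _ h3 (by omega)
      have hadj : Adj z (z + v) ∧ Adj (z + v) z := by
        unfold Adj
        simp only [List.mem_cons, List.not_mem_nil, or_false] at hv
        rcases hv with rfl | rfl | rfl | rfl <;> simp
      exact ⟨Relation.ReflTransGen.head ⟨hz, h3, hadj.1⟩ i1,
        Relation.ReflTransGen.tail i2 ⟨h3, hz, hadj.2⟩⟩

theorem isPolyomino : IsPolyomino thePoly := by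
  refine ⟨⟨(0, 0), by decide⟩, ?_, ?_⟩
  · refine ((Finset.Icc (-9 : ℤ) 12 ×ˢ Finset.Icc (-9 : ℤ) 12).finite_toSet).subset ?_
    intro z hz
    exact Finset.mem_coe.2 (Finset.mem_product.2 (thePoly_range hz))
  · intro z hz w hw
    exact (conn_origin _ z hz le_rfl).1.trans (conn_origin _ w hw le_rfl).2

theorem isTiling : IsTiling thePoly theTiling := by
  refine ⟨?_, ?_⟩
  · rintro Q ⟨τ, ⟨i, j, p, hp, rfl⟩, rfl⟩
    obtain ⟨v, hv, h1, h2⟩ := shape _ _ _ p hp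
    have e1 : cellOf i j p.2.1 = cellOf i j p.1 + v := by
      rw [cellOf_eq i j p.2.1, h1, cellOf_eq i j p.1]; abel
    have e2 : cellOf i j p.2.2 = cellOf i j p.1 + (-v.2, v.1) := by
      rw [cellOf_eq i j p.2.2, h2, cellOf_eq i j p.1]; abel
    simp only [tile, e1, e2]
    obtain ⟨v1, v2⟩ := v
    have hv' : (v1 = 1 ∧ v2 = 0) ∨ (v1 = 0 ∧ v2 = 1) ∨ (v1 = -1 ∧ v2 = 0) ∨
        (v1 = 0 ∧ v2 = -1) := by
      simpa [List.mem_cons] using hv
    obtain ⟨u, hu⟩ : ∃ u, u = cellOf i j p.1 := ⟨_, rfl⟩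
    rw [← hu]
    obtain ⟨u1, u2⟩ := u
    refine ⟨fun z => (v1 * z.1 + (-v2) * z.2 + (6 * u1 - u2), v2 * z.1 + v1 * z.2 + (u1 + 6 * u2)),
      ⟨v1, -v2, v2, v1, 6 * u1 - u2, u1 + 6 * u2, ?_, fun z => rfl⟩, ?_⟩
    · rcases hv' with ⟨rfl, rfl⟩ | ⟨rfl, rfl⟩ | ⟨rfl, rfl⟩ | ⟨rfl, rfl⟩ <;> simp
    · ext ⟨x, y⟩
      simp only [Set.mem_ofPred_eq, Finset.mem_insert, Finset.mem_singleton, Set.mem_image]
      constructor
      · intro h
        refine ⟨(v1 * (x - (6 * u1 - u2)) + v2 * (y - (u1 + 6 * u2)),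
          -v2 * (x - (6 * u1 - u2)) + v1 * (y - (u1 + 6 * u2))), ?_, ?_⟩
        · simp only [thePoly, proj, Set.mem_ofPred_eq, Prod.mk.injEq, Prod.mk_add_mk] at h ⊢
          rcases hv' with ⟨rfl, rfl⟩ | ⟨rfl, rfl⟩ | ⟨rfl, rfl⟩ | ⟨rfl, rfl⟩ <;> omega
        · rcases hv' with ⟨rfl, rfl⟩ | ⟨rfl, rfl⟩ | ⟨rfl, rfl⟩ | ⟨rfl, rfl⟩ <;>
            ext <;> simp only <;> ring
      · rintro ⟨⟨a, b⟩, h, hxy⟩
        simp only [Prod.mk.injEq] at hxy
        obtain ⟨rfl, rfl⟩ := hxy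
        simp only [thePoly, proj, Set.mem_ofPred_eq, Prod.mk.injEq, Prod.mk_add_mk] at h ⊢
        rcases hv' with ⟨rfl, rfl⟩ | ⟨rfl, rfl⟩ | ⟨rfl, rfl⟩ | ⟨rfl, rfl⟩ <;> omega
  · intro z
    obtain ⟨τ, hτ, hz, huniq⟩ := TQ_tiling (proj z)
    refine ⟨{w | proj w ∈ τ}, ⟨⟨τ, hτ, rfl⟩, hz⟩, ?_⟩
    rintro Q ⟨⟨τ', hτ', rfl⟩, hz'⟩
    rw [huniq τ' hτ' hz']

theorem gam_shf (l : ℤ × ℤ) : gam (shf l) = (37 * l.1, 37 * l.2) := by
  unfold gam shf
  ext <;> simp only <;> ring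

theorem no_patch (m n : ℕ) (hm : 1 ≤ m) (hn : 1 ≤ n) (S : Set (Set Cell)) (hST : S ⊆ theTiling)
    (hfin : S.Finite) (hF : IsFundamentalDomain m n (⋃₀ S)) : False := by
  classical
  obtain ⟨S', hS', rfl⟩ := (Set.subset_image_iff).1 hST
  have hinj : Function.Injective (fun τ : Finset (ℤ × ℤ) => {z : ℤ × ℤ | proj z ∈ τ}) := by
    intro τ τ' h
    ext u
    obtain ⟨z, rfl⟩ := proj_surjective u
    exact Set.ext_iff.1 h z
  have hfin' : S'.Finite := Set.Finite.of_finite_image hfin hinj.injOn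
  obtain ⟨SF, rfl⟩ : ∃ SF : Finset (Finset (ℤ × ℤ)), (SF : Set (Finset (ℤ × ℤ))) = S' :=
    ⟨hfin'.toFinset, hfin'.coe_toFinset⟩
  set U := SF.biUnion id with hUdef
  have hmem : ∀ z : ℤ × ℤ, z ∈ ⋃₀ ((fun τ : Finset (ℤ × ℤ) => {z : ℤ × ℤ | proj z ∈ τ}) ''
      (SF : Set (Finset (ℤ × ℤ)))) ↔ proj z ∈ U := by
    intro z
    simp [hUdef]
  have H : ∀ z : Cell, ∃! l : ℤ × ℤ, (n : ℤ) ∣ l.1 ∧ (m : ℤ) ∣ l.2 ∧ proj (z - l) ∈ U := by
    intro z
    have := hF z
    simpa only [hmem] using this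
  -- the set of centres
  set C : Set (ℤ × ℤ) := {c | ∃ u ∈ U, ∃ l : ℤ × ℤ, (n : ℤ) ∣ l.1 ∧ (m : ℤ) ∣ l.2 ∧
    c = gam u + l} with hCdef
  have hproj : ∀ z u : ℤ × ℤ, proj (z - gam u) = proj z - u := by
    intro z u
    have := proj_add_gam (z - gam u) u
    rw [sub_add_cancel] at this
    rw [this, add_sub_cancel_right]
  have hC : DT C := by
    intro z
    obtain ⟨l, ⟨h1, h2, h3⟩, h4⟩ := H z
    refine ⟨gam (proj (z - l)) + l, ⟨⟨_, h3, l, h1, h2, rfl⟩, ?_⟩, ?_⟩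
    · rw [show z - (gam (proj (z - l)) + l) = (z - l) - gam (proj (z - l)) by abel, hproj,
        sub_self]
    · rintro c ⟨⟨u, hu, l', h1', h2', rfl⟩, h5⟩
      rw [show z - (gam u + l') = (z - l') - gam u by abel, hproj, sub_eq_zero] at h5
      have hl : l' = l := h4 l' ⟨h1', h2', by rwa [h5]⟩
      subst hl
      rw [h5]
  obtain ⟨c0, ⟨hc0, -⟩, -⟩ := hC 0
  have hCadd : ∀ l : ℤ × ℤ, (n : ℤ) ∣ l.1 → (m : ℤ) ∣ l.2 → c0 + l ∈ C := by
    intro l h1 h2
    obtain ⟨u, hu, l', h1', h2', h⟩ := hc0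
    exact ⟨u, hu, l' + l, dvd_add h1' h1, dvd_add h2' h2, by rw [h]; abel⟩
  -- `n` and `m` are divisible by `37`
  obtain ⟨p, hp, rfl⟩ : ∃ p : ℕ, 0 < p ∧ n = 37 * p := by
    obtain ⟨u, hu⟩ := hC.sub_mem hc0 (hCadd ((n : ℤ), 0) (dvd_refl _) (dvd_zero _))
    have hu' := add_left_cancel hu
    unfold gam at hu'
    simp only [Prod.mk.injEq] at hu'
    refine ⟨(-u.2).toNat, by omega, by omega⟩
  obtain ⟨q, hq, rfl⟩ : ∃ q : ℕ, 0 < q ∧ m = 37 * q := by
    obtain ⟨u, hu⟩ := hC.sub_mem hc0 (hCadd (0, (m : ℤ)) (dvd_zero _) (dvd_refl _))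
    have hu' := add_left_cancel hu
    unfold gam at hu'
    simp only [Prod.mk.injEq] at hu'
    refine ⟨u.1.toNat, by omega, by omega⟩
  refine no_FD hp hq SF (fun τ hτ => hS' hτ) ?_
  intro v
  obtain ⟨L, ⟨h1, h2, h3⟩, h4⟩ := H (gam v)
  have hd : ∀ (k : ℕ) (x : ℤ), ((37 * k : ℕ) : ℤ) ∣ x ↔ ∃ y, x = 37 * y ∧ (k : ℤ) ∣ y := by
    intro k x
    constructor
    · rintro ⟨y, rfl⟩
      exact ⟨k * y, by push_cast; ring, dvd_mul_right _ _⟩
    · rintro ⟨y, rfl, ⟨w, rfl⟩⟩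
      exact ⟨w, by push_cast; ring⟩
  obtain ⟨a, ha, ha'⟩ := (hd _ _).1 h1
  obtain ⟨b, hb, hb'⟩ := (hd _ _).1 h2
  have hL : L = gam (shf (a, b)) := by
    rw [gam_shf]
    ext
    · exact ha
    · exact hb
  refine ⟨(a, b), ⟨ha', hb', ?_⟩, ?_⟩
  · rw [hL, hproj, proj_gam] at h3
    exact h3
  · rintro ⟨a', b'⟩ ⟨g1, g2, g3⟩
    have := h4 (gam (shf (a', b'))) ⟨by rw [gam_shf]; exact (hd _ _).2 ⟨a', rfl, g1⟩,
      by rw [gam_shf]; exact (hd _ _).2 ⟨b', rfl, g2⟩, by rw [hproj, proj_gam]; exact g3⟩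
    rw [hL, gam_shf, gam_shf] at this
    simp only [Prod.mk.injEq] at this
    ext <;> simp only <;> omega

/-- There are a polyomino `P` and a tiling `T` of the plane by copies of `P` such that for no
`m, n ≥ 1` the union of a finite subfamily of `T` is a fundamental domain of `nℤ × mℤ`. -/
theorem result : ∃ (P : Set Cell) (T : Set (Set Cell)), IsPolyomino P ∧ IsTiling P T ∧
    ∀ m n : ℕ, 1 ≤ m → 1 ≤ n → ¬ ∃ S : Set (Set Cell), S ⊆ T ∧ S.Finite ∧
      IsFundamentalDomain m n (⋃₀ S) :=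
  ⟨thePoly, theTiling, isPolyomino, isTiling, fun m n hm hn ⟨S, h1, h2, h3⟩ =>
    no_patch m n hm hn S h1 h2 h3⟩

end Pool.Agent.Results.MP_df5726_co.NoTorusPatch
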